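import Pool.Agent.Helper69.TC.Symm

/-!
M5a: almost every real configuration of seeds is generic.
-/

set_option autoImplicit false

open MeasureTheory Filter Topology

namespace Pool.Agent.Helper69.TC

namespace GenericAE

variable {k : ℕ}

theorem ae_ne (L : (Fin k → ℝ × ℝ) →ₗ[ℝ] ℝ) (v : Fin k → ℝ × ℝ) (hv : L v ≠ 0) (c : ℝ) :
    ∀ᵐ x : Fin k → ℝ × ℝ, L x ≠ c := by
  have hker : L.ker ≠ ⊤ := by
    intro h
    apply hv
    have : v ∈ L.ker := by rw [h]; trivial
    exact this
  have h0 : volume (L.ker : Set (Fin k → ℝ × ℝ)) = 0 := Measure.addHaar_submodule volume _ hker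
  set x0 : Fin k → ℝ × ℝ := (c / L v) • v with hx0
  have hL0 : L x0 = c := by
    rw [hx0, map_smul, smul_eq_mul, div_mul_cancel₀ _ hv]
  have h1 := (measurePreserving_sub_right volume x0).measure_preimage
    (s := (L.ker : Set (Fin k → ℝ × ℝ))) (Submodule.closed_of_finiteDimensional _).measurableSet.nullMeasurableSet
  rw [h0] at h1
  rw [ae_iff]
  refine measure_mono_null (fun x hx => ?_) h1
  simp only [ne_eq, not_not, Set.mem_ofPred_eq] at hx
  simp only [Set.mem_preimage, SetLike.mem_coe, LinearMap.mem_ker, map_sub, hx, hL0, sub_self]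

/-- the vertical line as a linear form -/
noncomputable def lX : Option (Fin k) → (Fin k → ℝ × ℝ) →ₗ[ℝ] ℝ
  | none => 0
  | some i => (LinearMap.fst ℝ ℝ ℝ).comp (LinearMap.proj i)

/-- the horizontal line as a linear form -/
noncomputable def lY : Option (Fin k) → (Fin k → ℝ × ℝ) →ₗ[ℝ] ℝ
  | none => 0
  | some i => (LinearMap.snd ℝ ℝ ℝ).comp (LinearMap.proj i)

theorem lX_apply (a : Option (Fin k)) (x : Fin k → ℝ × ℝ) : lX a x = rlineX x a := by
  cases a <;> simp [lX, rlineX]

theorem lY_apply (a : Option (Fin k)) (x : Fin k → ℝ × ℝ) : lY a x = rlineY x a := by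
  cases a <;> simp [lY, rlineY]

/-- unit horizontal displacement of one seed -/
noncomputable def vX (s : Fin k) : Fin k → ℝ × ℝ := fun i => if i = s then (1, 0) else 0

/-- unit vertical displacement of one seed -/
noncomputable def vY (s : Fin k) : Fin k → ℝ × ℝ := fun i => if i = s then (0, 1) else 0

theorem lX_vX_self (s : Fin k) : lX (some s) (vX s) = 1 := by simp [lX, vX]

theorem lX_vX {a : Option (Fin k)} {s : Fin k} (h : a ≠ some s) : lX a (vX s) = 0 := by
  cases a with
  | none => simp [lX]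
  | some i =>
    have : i ≠ s := fun h' => h (by rw [h'])
    simp [lX, vX, this]

theorem lY_vX (a : Option (Fin k)) (s : Fin k) : lY a (vX s) = 0 := by
  cases a with
  | none => simp [lY]
  | some i =>
    by_cases h : i = s <;> simp [lY, vX, h]

theorem lY_vY_self (s : Fin k) : lY (some s) (vY s) = 1 := by simp [lY, vY]

theorem lY_vY {a : Option (Fin k)} {s : Fin k} (h : a ≠ some s) : lY a (vY s) = 0 := by
  cases a with
  | none => simp [lY]
  | some i =>
    have : i ≠ s := fun h' => h (by rw [h'])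
    simp [lY, vY, this]

theorem lX_vY (a : Option (Fin k)) (s : Fin k) : lX a (vY s) = 0 := by
  cases a with
  | none => simp [lX]
  | some i =>
    by_cases h : i = s <;> simp [lX, vY, h]

theorem abs_sign (a : ℝ) : ∃ e : Bool, |a| = (if e then 1 else -1) * a := by
  rcases abs_choice a with h | h
  · exact ⟨true, by simpa using h⟩
  · exact ⟨false, by simpa using h⟩

/-- the sign -/
noncomputable def sg (e : Bool) : ℝ := if e then 1 else -1

theorem sg_ne (e : Bool) : sg e ≠ 0 := by cases e <;> simp [sg]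

theorem ae_ix (a b : Option (Fin k)) (hab : a ≠ b) :
    ∀ᵐ x : Fin k → ℝ × ℝ, rlineX x a ≠ rlineX x b := by
  have key : ∀ a b : Option (Fin k), a ≠ b → ∀ s, a = some s →
      ∀ᵐ x : Fin k → ℝ × ℝ, rlineX x a ≠ rlineX x b := by
    intro a b hab s hs
    have h := ae_ne (lX a - lX b) (vX s) (by
      rw [LinearMap.sub_apply, hs, lX_vX_self, lX_vX (by rw [← hs]; exact hab.symm)]
      norm_num) 0
    filter_upwards [h] with x hx
    rw [LinearMap.sub_apply, lX_apply, lX_apply] at hx
    exact fun h => hx (by rw [h, sub_self])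
  cases ha : a with
  | some s => exact key _ _ (by rw [← ha]; exact hab) s rfl
  | none =>
    cases hb : b with
    | none => exact absurd (ha.trans hb.symm) hab
    | some s =>
      filter_upwards [key (some s) none (by simp) s rfl] with x hx
      exact hx.symm

theorem ae_iy (a b : Option (Fin k)) (hab : a ≠ b) :
    ∀ᵐ x : Fin k → ℝ × ℝ, rlineY x a ≠ rlineY x b := by
  have key : ∀ a b : Option (Fin k), a ≠ b → ∀ s, a = some s →
      ∀ᵐ x : Fin k → ℝ × ℝ, rlineY x a ≠ rlineY x b := by
    intro a b hab s hs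
    have h := ae_ne (lY a - lY b) (vY s) (by
      rw [LinearMap.sub_apply, hs, lY_vY_self, lY_vY (by rw [← hs]; exact hab.symm)]
      norm_num) 0
    filter_upwards [h] with x hx
    rw [LinearMap.sub_apply, lY_apply, lY_apply] at hx
    exact fun h => hx (by rw [h, sub_self])
  cases ha : a with
  | some s => exact key _ _ (by rw [← ha]; exact hab) s rfl
  | none =>
    cases hb : b with
    | none => exact absurd (ha.trans hb.symm) hab
    | some s =>
      filter_upwards [key (some s) none (by simp) s rfl] with x hx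
      exact hx.symm

theorem rcrossD_eq (x : Fin k → ℝ × ℝ) (a b : Option (Fin k)) (s : Fin k) :
    ∃ e1 e2 : Bool, rcrossD x a b s
      = sg e1 * (lX a x - lX (some s) x) + sg e2 * (lY b x - lY (some s) x) := by
  obtain ⟨e1, h1⟩ := abs_sign (rlineX x a - (x s).1)
  obtain ⟨e2, h2⟩ := abs_sign (rlineY x b - (x s).2)
  refine ⟨e1, e2, ?_⟩
  rw [rcrossD, h1, h2, lX_apply, lX_apply, lY_apply, lY_apply]
  rfl

theorem ae_sep (a b : Option (Fin k)) (s t : Fin k) (hst : s ≠ t) :
    ∀ᵐ x : Fin k → ℝ × ℝ, rcrossD x a b s ≠ rcrossD x a b t := by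
  have h : ∀ e1 e2 e3 e4 : Bool, ∀ᵐ x : Fin k → ℝ × ℝ,
      (sg e1 • (lX a - lX (some s)) + sg e2 • (lY b - lY (some s))
        - sg e3 • (lX a - lX (some t)) - sg e4 • (lY b - lY (some t))) x ≠ 0 := by
    intro e1 e2 e3 e4
    by_cases ha : a = some s
    · refine ae_ne _ (vX t) ?_ 0
      simp only [LinearMap.sub_apply, LinearMap.add_apply, LinearMap.smul_apply, smul_eq_mul,
        lY_vX, lX_vX_self]
      have hs' : (some s : Option (Fin k)) ≠ some t := by simpa using hst
      rw [ha, lX_vX hs']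
      have := sg_ne e3
      intro h
      apply this
      linarith
    · refine ae_ne _ (vX s) ?_ 0
      simp only [LinearMap.sub_apply, LinearMap.add_apply, LinearMap.smul_apply, smul_eq_mul,
        lY_vX, lX_vX_self]
      have hs' : (some t : Option (Fin k)) ≠ some s := by simpa using hst.symm
      rw [lX_vX ha, lX_vX hs']
      have := sg_ne e1
      intro h
      apply this
      linarith
  have h' : ∀ᵐ x : Fin k → ℝ × ℝ, ∀ e1 e2 e3 e4 : Bool,
      (sg e1 • (lX a - lX (some s)) + sg e2 • (lY b - lY (some s))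
        - sg e3 • (lX a - lX (some t)) - sg e4 • (lY b - lY (some t))) x ≠ 0 := by
    rw [ae_all_iff]; intro e1
    rw [ae_all_iff]; intro e2
    rw [ae_all_iff]; intro e3
    rw [ae_all_iff]; intro e4
    exact h e1 e2 e3 e4
  filter_upwards [h'] with x hx heq
  obtain ⟨e1, e2, h1⟩ := rcrossD_eq x a b s
  obtain ⟨e3, e4, h2⟩ := rcrossD_eq x a b t
  apply hx e1 e2 e3 e4
  simp only [LinearMap.sub_apply, LinearMap.add_apply, LinearMap.smul_apply, smul_eq_mul]
  linarith

theorem ae_hor (K : ℝ) (s : Fin k) :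
    ∀ᵐ x : Fin k → ℝ × ℝ, rcrossD x none none s ≠ K := by
  have h' : ∀ᵐ x : Fin k → ℝ × ℝ, ∀ e1 e2 : Bool,
      (sg e1 • (lX (k := k) none - lX (some s)) + sg e2 • (lY (k := k) none - lY (some s))) x ≠ K := by
    rw [ae_all_iff]; intro e1
    rw [ae_all_iff]; intro e2
    refine ae_ne _ (vX s) ?_ K
    simp only [LinearMap.sub_apply, LinearMap.add_apply, LinearMap.smul_apply, smul_eq_mul,
      lY_vX, lX_vX_self]
    rw [lX_vX (by simp)]
    have := sg_ne e1
    intro h
    apply this
    linarith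
  filter_upwards [h'] with x hx heq
  obtain ⟨e1, e2, h1⟩ := rcrossD_eq x none none s
  apply hx e1 e2
  simp only [LinearMap.sub_apply, LinearMap.add_apply, LinearMap.smul_apply, smul_eq_mul]
  linarith

theorem ae_horx (K : ℝ) (s : Fin k) : ∀ᵐ x : Fin k → ℝ × ℝ, |(x s).1| ≠ K := by
  have h' : ∀ᵐ x : Fin k → ℝ × ℝ, ∀ e1 : Bool, (sg e1 • lX (some s)) x ≠ K := by
    rw [ae_all_iff]; intro e1
    refine ae_ne _ (vX s) ?_ K
    simp only [LinearMap.smul_apply, smul_eq_mul, lX_vX_self, mul_one]
    exact sg_ne e1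
  filter_upwards [h'] with x hx heq
  obtain ⟨e1, h1⟩ := abs_sign (x s).1
  apply hx e1
  rw [LinearMap.smul_apply, lX_apply, smul_eq_mul, ← heq, h1]
  rfl

theorem ae_hory (K : ℝ) (s : Fin k) : ∀ᵐ x : Fin k → ℝ × ℝ, |(x s).2| ≠ K := by
  have h' : ∀ᵐ x : Fin k → ℝ × ℝ, ∀ e1 : Bool, (sg e1 • lY (some s)) x ≠ K := by
    rw [ae_all_iff]; intro e1
    refine ae_ne _ (vY s) ?_ K
    simp only [LinearMap.smul_apply, smul_eq_mul, lY_vY_self, mul_one]
    exact sg_ne e1
  filter_upwards [h'] with x hx heq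
  obtain ⟨e1, h1⟩ := abs_sign (x s).2
  apply hx e1
  rw [LinearMap.smul_apply, lY_apply, smul_eq_mul, ← heq, h1]
  rfl

end GenericAE

open GenericAE

theorem ae_gen {k : ℕ} {K : ℝ} (hK : 0 < K) :
    ∀ᵐ x : Fin k → ℝ × ℝ ∂volume, Gen K x := by
  have h1 : ∀ᵐ x : Fin k → ℝ × ℝ, ∀ a b : Option (Fin k), a ≠ b → rlineX x a ≠ rlineX x b := by
    rw [ae_all_iff]; intro a
    rw [ae_all_iff]; intro b
    by_cases hab : a = b
    · exact Eventually.of_forall fun x h => absurd hab h
    · filter_upwards [ae_ix a b hab] with x hx _ using hx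
  have h2 : ∀ᵐ x : Fin k → ℝ × ℝ, ∀ a b : Option (Fin k), a ≠ b → rlineY x a ≠ rlineY x b := by
    rw [ae_all_iff]; intro a
    rw [ae_all_iff]; intro b
    by_cases hab : a = b
    · exact Eventually.of_forall fun x h => absurd hab h
    · filter_upwards [ae_iy a b hab] with x hx _ using hx
  have h3 : ∀ᵐ x : Fin k → ℝ × ℝ, ∀ (a b : Option (Fin k)) (s t : Fin k), s ≠ t →
      rcrossD x a b s ≠ rcrossD x a b t := by
    rw [ae_all_iff]; intro a
    rw [ae_all_iff]; intro b
    rw [ae_all_iff]; intro s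
    rw [ae_all_iff]; intro t
    by_cases hst : s = t
    · exact Eventually.of_forall fun x h => absurd hst h
    · filter_upwards [ae_sep a b s t hst] with x hx _ using hx
  filter_upwards [h1, h2, h3, ae_all_iff.2 (ae_hor K), ae_all_iff.2 (ae_horx K),
    ae_all_iff.2 (ae_hory K)] with x g1 g2 g3 g4 g5 g6
  exact ⟨g1, g2, g3, g4, g5, g6⟩

end Pool.Agent.Helper69.TC
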