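import Pool.Agent.Helper69.TC.Compare

/-!
M5b: for a generic configuration of real seeds the outcome on the lattice of mesh `ε` is eventually
constant.
-/

set_option autoImplicit false

open MeasureTheory Filter Topology

namespace Pool.Agent.Helper69.TC

namespace GenericConst

variable {k : ℕ}

theorem tendsto_floor (t : ℝ) :
    Tendsto (fun ε : ℝ => ε * (⌊t / ε⌋ : ℝ)) (𝓝[>] 0) (𝓝 t) := by
  have h1 : Tendsto (fun ε : ℝ => t - ε) (𝓝[>] 0) (𝓝 t) := by
    have : Tendsto (fun ε : ℝ => t - ε) (𝓝 0) (𝓝 (t - 0)) :=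
      tendsto_const_nhds.sub tendsto_id
    rw [sub_zero] at this
    exact this.mono_left nhdsWithin_le_nhds
  refine tendsto_of_tendsto_of_tendsto_of_le_of_le' h1 tendsto_const_nhds ?_ ?_
  · filter_upwards [self_mem_nhdsWithin] with ε hε
    rw [Set.mem_Ioi] at hε
    have h2 := (Int.lt_floor_add_one (t / ε)).le
    have h3 : ε * (t / ε) ≤ ε * (⌊t / ε⌋ + 1) := mul_le_mul_of_nonneg_left h2 hε.le
    rw [mul_div_cancel₀ _ hε.ne'] at h3
    linarith
  · filter_upwards [self_mem_nhdsWithin] with ε hε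
    rw [Set.mem_Ioi] at hε
    have h2 := Int.floor_le (t / ε)
    have h3 : ε * ⌊t / ε⌋ ≤ ε * (t / ε) := mul_le_mul_of_nonneg_left h2 hε.le
    rwa [mul_div_cancel₀ _ hε.ne'] at h3

theorem tendsto_lineX (x : Fin k → ℝ × ℝ) (a : Option (Fin k)) :
    Tendsto (fun ε : ℝ => ε * (lineX (floorPos ε x) a : ℝ)) (𝓝[>] 0) (𝓝 (rlineX x a)) := by
  cases a with
  | none => simp [lineX, rlineX]
  | some i => exact tendsto_floor (x i).1

theorem tendsto_lineY (x : Fin k → ℝ × ℝ) (a : Option (Fin k)) :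
    Tendsto (fun ε : ℝ => ε * (lineY (floorPos ε x) a : ℝ)) (𝓝[>] 0) (𝓝 (rlineY x a)) := by
  cases a with
  | none => simp [lineY, rlineY]
  | some i => exact tendsto_floor (x i).2

theorem crossD_cast {ι : Type} (pos : ι → Site) (a b : Option ι) (s : ι) :
    (crossD pos a b s : ℝ) = |(lineX pos a : ℝ) - lineX pos (some s)|
      + |(lineY pos b : ℝ) - lineY pos (some s)| := by
  unfold crossD dist1
  push_cast
  simp only [Nat.cast_natAbs, Int.cast_abs, Int.cast_sub]
  rfl

theorem tendsto_crossD (x : Fin k → ℝ × ℝ) (a b : Option (Fin k)) (s : Fin k) :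
    Tendsto (fun ε : ℝ => ε * (crossD (floorPos ε x) a b s : ℝ)) (𝓝[>] 0)
      (𝓝 (rcrossD x a b s)) := by
  have h1 := ((tendsto_lineX x a).sub (tendsto_lineX x (some s))).abs
  have h2 := ((tendsto_lineY x b).sub (tendsto_lineY x (some s))).abs
  refine (h1.add h2).congr' ?_
  filter_upwards [self_mem_nhdsWithin] with ε hε
  rw [Set.mem_Ioi] at hε
  rw [crossD_cast, mul_add, ← mul_sub, ← mul_sub, abs_mul, abs_mul, abs_of_pos hε]

theorem tendsto_small (c : ℝ) : Tendsto (fun ε : ℝ => ε * c) (𝓝[>] 0) (𝓝 0) := by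
  have : Tendsto (fun ε : ℝ => ε * c) (𝓝 0) (𝓝 (0 * c)) := tendsto_id.mul_const c
  rw [zero_mul] at this
  exact this.mono_left nhdsWithin_le_nhds

theorem ev_gap {u v : ℝ → ℤ} {p q : ℝ}
    (hu : Tendsto (fun ε : ℝ => ε * (u ε : ℝ)) (𝓝[>] 0) (𝓝 p))
    (hv : Tendsto (fun ε : ℝ => ε * (v ε : ℝ)) (𝓝[>] 0) (𝓝 q)) (hpq : p ≠ q) :
    ∀ᶠ ε : ℝ in 𝓝[>] 0, 4 ≤ (u ε - v ε).natAbs := by
  have h1 := (hu.sub hv).abs
  have h2 : 0 < |p - q| := abs_pos.2 (sub_ne_zero.2 hpq)
  filter_upwards [(tendsto_small 4).eventually_lt h1 h2, self_mem_nhdsWithin] with ε h3 hε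
  rw [Set.mem_Ioi] at hε
  rw [← mul_sub, abs_mul, abs_of_pos hε] at h3
  have h4 := lt_of_mul_lt_mul_left h3 hε.le
  have h5 : ((4 : ℤ) : ℝ) < ((|u ε - v ε| : ℤ) : ℝ) := by
    push_cast
    exact h4
  have h6 : (4 : ℤ) < |u ε - v ε| := by exact_mod_cast h5
  have h7 : (((u ε - v ε).natAbs : ℕ) : ℤ) = |u ε - v ε| := Int.natCast_natAbs _
  omega

theorem ev_ord {u v : ℝ → ℤ} {p q : ℝ}
    (hu : Tendsto (fun ε : ℝ => ε * (u ε : ℝ)) (𝓝[>] 0) (𝓝 p))
    (hv : Tendsto (fun ε : ℝ => ε * (v ε : ℝ)) (𝓝[>] 0) (𝓝 q)) (hpq : p ≠ q) :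
    ∀ᶠ ε : ℝ in 𝓝[>] 0, u ε < v ε ↔ p < q := by
  rcases lt_or_gt_of_ne hpq with h | h
  · filter_upwards [hu.eventually_lt hv h, self_mem_nhdsWithin] with ε h3 hε
    rw [Set.mem_Ioi] at hε
    have h4 := lt_of_mul_lt_mul_left h3 hε.le
    have h5 : u ε < v ε := by exact_mod_cast h4
    exact iff_of_true h5 h
  · filter_upwards [hv.eventually_lt hu h, self_mem_nhdsWithin] with ε h3 hε
    rw [Set.mem_Ioi] at hε
    have h4 := lt_of_mul_lt_mul_left h3 hε.le
    have h5 : v ε < u ε := by exact_mod_cast h4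
    exact iff_of_false (not_lt.2 h5.le) (not_lt.2 h.le)

theorem ev_nat {u v : ℝ → ℕ} {p q : ℝ}
    (hu : Tendsto (fun ε : ℝ => ε * (u ε : ℝ)) (𝓝[>] 0) (𝓝 p))
    (hv : Tendsto (fun ε : ℝ => ε * (v ε : ℝ)) (𝓝[>] 0) (𝓝 q)) (hpq : p < q) :
    ∀ᶠ ε : ℝ in 𝓝[>] 0, u ε + 10 ≤ v ε := by
  have h1 : Tendsto (fun ε : ℝ => ε * ((u ε + 10 : ℕ) : ℝ)) (𝓝[>] 0) (𝓝 p) := by
    have := hu.add (tendsto_small 10)
    rw [add_zero] at this
    refine this.congr fun ε => ?_
    push_cast
    ring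
  filter_upwards [h1.eventually_lt hv hpq, self_mem_nhdsWithin] with ε h3 hε
  rw [Set.mem_Ioi] at hε
  have h4 := lt_of_mul_lt_mul_left h3 hε.le
  exact_mod_cast h4.le

/-- Good meshes for a configuration. -/
structure Good (K : ℝ) (x : Fin k → ℝ × ℝ) (ε : ℝ) : Prop where
  spread : Spread (floorPos ε x)
  ordX : ∀ a b : Option (Fin k),
    lineX (floorPos ε x) a < lineX (floorPos ε x) b ↔ rlineX x a < rlineX x b
  ordY : ∀ a b : Option (Fin k),
    lineY (floorPos ε x) a < lineY (floorPos ε x) b ↔ rlineY x a < rlineY x b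
  cmp : ∀ (a b : Option (Fin k)) (s t : Fin k),
    crossD (floorPos ε x) a b s < crossD (floorPos ε x) a b t ↔ rcrossD x a b s < rcrossD x a b t
  hor : ∀ s : Fin k, (crossD (floorPos ε x) none none s : ℝ) ≤ K / ε ↔ rcrossD x none none s < K

theorem eventually_good {K : ℝ} {x : Fin k → ℝ × ℝ} (hx : Gen K x) :
    ∀ᶠ ε : ℝ in 𝓝[>] 0, Good K x ε := by
  have gX : ∀ᶠ ε : ℝ in 𝓝[>] 0, ∀ a b : Option (Fin k), a ≠ b →
      4 ≤ (lineX (floorPos ε x) a - lineX (floorPos ε x) b).natAbs := by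
    rw [eventually_all]; intro a
    rw [eventually_all]; intro b
    by_cases hab : a = b
    · exact Eventually.of_forall fun _ h => absurd hab h
    · filter_upwards [ev_gap (tendsto_lineX x a) (tendsto_lineX x b) (hx.ix a b hab)] with ε h _
        using h
  have gY : ∀ᶠ ε : ℝ in 𝓝[>] 0, ∀ a b : Option (Fin k), a ≠ b →
      4 ≤ (lineY (floorPos ε x) a - lineY (floorPos ε x) b).natAbs := by
    rw [eventually_all]; intro a
    rw [eventually_all]; intro b
    by_cases hab : a = b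
    · exact Eventually.of_forall fun _ h => absurd hab h
    · filter_upwards [ev_gap (tendsto_lineY x a) (tendsto_lineY x b) (hx.iy a b hab)] with ε h _
        using h
  have oX : ∀ᶠ ε : ℝ in 𝓝[>] 0, ∀ a b : Option (Fin k),
      lineX (floorPos ε x) a < lineX (floorPos ε x) b ↔ rlineX x a < rlineX x b := by
    rw [eventually_all]; intro a
    rw [eventually_all]; intro b
    by_cases hab : a = b
    · subst hab
      exact Eventually.of_forall fun _ => iff_of_false (lt_irrefl _) (lt_irrefl _)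
    · exact ev_ord (tendsto_lineX x a) (tendsto_lineX x b) (hx.ix a b hab)
  have oY : ∀ᶠ ε : ℝ in 𝓝[>] 0, ∀ a b : Option (Fin k),
      lineY (floorPos ε x) a < lineY (floorPos ε x) b ↔ rlineY x a < rlineY x b := by
    rw [eventually_all]; intro a
    rw [eventually_all]; intro b
    by_cases hab : a = b
    · subst hab
      exact Eventually.of_forall fun _ => iff_of_false (lt_irrefl _) (lt_irrefl _)
    · exact ev_ord (tendsto_lineY x a) (tendsto_lineY x b) (hx.iy a b hab)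
  have sp : ∀ᶠ ε : ℝ in 𝓝[>] 0, ∀ (a b : Option (Fin k)) (s t : Fin k), s ≠ t →
      (crossD (floorPos ε x) a b s + 10 ≤ crossD (floorPos ε x) a b t ∧
        rcrossD x a b s < rcrossD x a b t) ∨
      (crossD (floorPos ε x) a b t + 10 ≤ crossD (floorPos ε x) a b s ∧
        rcrossD x a b t < rcrossD x a b s) := by
    rw [eventually_all]; intro a
    rw [eventually_all]; intro b
    rw [eventually_all]; intro s
    rw [eventually_all]; intro t
    by_cases hst : s = t
    · exact Eventually.of_forall fun _ h => absurd hst h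
    · rcases lt_or_gt_of_ne (hx.sep a b s t hst) with h | h
      · filter_upwards [ev_nat (tendsto_crossD x a b s) (tendsto_crossD x a b t) h] with ε h' _
          using Or.inl ⟨h', h⟩
      · filter_upwards [ev_nat (tendsto_crossD x a b t) (tendsto_crossD x a b s) h] with ε h' _
          using Or.inr ⟨h', h⟩
  have hh : ∀ᶠ ε : ℝ in 𝓝[>] 0, ∀ s : Fin k,
      (crossD (floorPos ε x) none none s : ℝ) ≤ K / ε ↔ rcrossD x none none s < K := by
    rw [eventually_all]; intro s
    rcases lt_or_gt_of_ne (hx.hor s) with h | h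
    · filter_upwards [(tendsto_crossD x none none s).eventually (gt_mem_nhds h),
        self_mem_nhdsWithin] with ε h3 hε
      rw [Set.mem_Ioi] at hε
      refine iff_of_true ?_ h
      rw [le_div_iff₀ hε, mul_comm]
      exact h3.le
    · filter_upwards [(tendsto_crossD x none none s).eventually (lt_mem_nhds h),
        self_mem_nhdsWithin] with ε h3 hε
      rw [Set.mem_Ioi] at hε
      refine iff_of_false ?_ (not_lt.2 h.le)
      rw [not_le, div_lt_iff₀ hε, mul_comm]
      exact h3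
  filter_upwards [gX, gY, oX, oY, sp, hh] with ε h1 h2 h3 h4 h5 h6
  refine ⟨⟨h1, h2, fun a b s t hst => ?_⟩, h3, h4, fun a b s t => ?_, h6⟩
  · exact (h5 a b s t hst).imp (fun h => h.1) (fun h => h.1)
  · by_cases hst : s = t
    · subst hst
      exact iff_of_false (lt_irrefl _) (lt_irrefl _)
    · rcases h5 a b s t hst with h | h
      · exact iff_of_true (by omega) h.2
      · exact iff_of_false (by omega) (not_lt.2 h.2.le)

theorem Good.similar {K : ℝ} {x : Fin k → ℝ × ℝ} {ε ε' : ℝ} (h : Good K x ε) (h' : Good K x ε') :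
    Similar (floorPos ε x) (floorPos ε' x) where
  spread := h.spread
  spread' := h'.spread
  ordX := fun a b => (h.ordX a b).trans (h'.ordX a b).symm
  ordY := fun a b => (h.ordY a b).trans (h'.ordY a b).symm
  cmp := fun a b s t => (h.cmp a b s t).trans (h'.cmp a b s t).symm

end GenericConst

open GenericConst

theorem eventually_const {k : ℕ} {K : ℝ} (hK : 0 < K) {x : Fin k → ℝ × ℝ} (hx : Gen K x)
    (clr : Fin k → Color) :
    ∃ b : Prop, ∀ᶠ ε : ℝ in 𝓝[>] 0, ∀ A : Site → Color → ℕ → Prop,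
      Growth (seedOf (floorPos ε x) clr) A →
      ((∃ n : ℕ, (n : ℝ) ≤ K / ε ∧ A (0, 0) Color.green n) ↔ b) := by
  obtain ⟨ε1, h1⟩ := (eventually_good hx).exists
  have hA1 := growth_run (seedOf (floorPos ε1 x) clr) (fun _ => Classical.arbitrary Ranking)
  refine ⟨∃ s : Fin k, clr s = Color.green ∧ rcrossD x none none s < K ∧
    Col (seedOf (floorPos ε1 x) clr) (fun _ => Classical.arbitrary Ranking) (0, 0) (clr s)
      (crossD (floorPos ε1 x) none none s), ?_⟩
  filter_upwards [eventually_good hx] with ε hε A hA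
  constructor
  · rintro ⟨n, hn, h0⟩
    obtain ⟨s, hs1, hs2⟩ := origin_source hε.spread hA h0
    refine ⟨s, hs1, (hε.hor s).1 (by rw [hs2]; exact hn), ?_⟩
    refine origin_compare (hε.similar h1) hA hA1 s ?_
    rw [hs1, hs2]
    exact h0
  · rintro ⟨s, hs1, hs2, h0⟩
    have h2 := origin_compare (h1.similar hε) hA1 hA s h0
    rw [hs1] at h2
    exact ⟨_, (hε.hor s).2 hs2, h2⟩

end Pool.Agent.Helper69.TC
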